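import Pool.Agent.helper23.TH.Spec

set_option autoImplicit false

open scoped BigOperators Topology
open Filter

namespace Pool.Agent.helper23.TH

/-- images under a field homomorphism: `gg` -/
theorem EX_gg {F F' : Type*} [Field F] [Field F'] (f : F →+* F') {b : ℕ} (x y : Fin b → F) (i : Ix b) :
    gg (fun k => f (x k)) (fun k => f (y k)) i = f (gg x y i) := by
  rcases i with i | ⟨i, j⟩
  · simp only [gg, map_add]
  · simp only [gg, map_add, map_mul]

/-- images under a field homomorphism: `col` -/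
theorem EX_col {F F' : Type*} [Field F] [Field F'] (f : F →+* F') {b m d : ℕ}
    (a : Fin m → Mon b d → F) (x y : Fin b → F) :
    col (fun j μ => f (a j μ)) (fun k => f (x k)) (fun k => f (y k)) = fun j => f (col a x y j) := by
  funext j
  simp only [col, map_sum, map_mul, ev, map_prod, map_pow]
  refine Finset.sum_congr rfl fun μ _ => ?_
  congr 1
  refine Finset.prod_congr rfl fun i _ => ?_
  rw [EX_gg]

/-- `EX1` fails up to `j` -/
def EX_G1 (b m d j : ℕ) : Prop :=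
  ∃ a : Fin m → Mon b d → Om,
    (∀ P : MvPolynomial (Fin m × Mon b d) (ZMod 3), P ≠ 0 → P.totalDegree ≤ j →
      MvPolynomial.aeval (fun q : Fin m × Mon b d => a q.1 q.2) P ≠ 0) ∧
    ∃ (x : Fin b → Om) (c : Fin m → Om),
      (j : ℕ∞) < {x' : Fin b → Om | x' ≠ x ∧ col a x x' = c}.encard

/-- `EX2` fails up to `j` -/
def EX_G2 (T : Rooted) (d j : ℕ) : Prop :=
  ∃ a : Fin (2 * T.v) → Mon T.e d → Om,
    (∀ P : MvPolynomial (Fin (2 * T.v) × Mon T.e d) (ZMod 3), P ≠ 0 → P.totalDegree ≤ j →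
      MvPolynomial.aeval (fun q : Fin (2 * T.v) × Mon T.e d => a q.1 q.2) P ≠ 0) ∧
    ∃ (ρ ρ' : Fin T.r → Fin T.e → Om), (j : ℕ∞) < (Sol T a ρ ρ').encard

theorem EX_G1_mono {b m d j j' : ℕ} (h : j ≤ j') (H : EX_G1 b m d j') : EX_G1 b m d j := by
  obtain ⟨a, ha, x, c, hx⟩ := H
  exact ⟨a, fun P hP hd => ha P hP (hd.trans h), x, c, lt_of_le_of_lt (by exact_mod_cast h) hx⟩

theorem EX_G2_mono {T : Rooted} {d j j' : ℕ} (h : j ≤ j') (H : EX_G2 T d j') : EX_G2 T d j := by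
  obtain ⟨a, ha, ρ, ρ', hx⟩ := H
  exact ⟨a, fun P hP hd => ha P hP (hd.trans h), ρ, ρ', lt_of_le_of_lt (by exact_mod_cast h) hx⟩

theorem EX_not_G1 (h1 : EX1_stmt) (b m d : ℕ) (hb : b ≤ m) (hd : 2 * m ≤ d) : ∃ j, ¬ EX_G1 b m d j := by
  by_contra hcon
  push Not at hcon
  choose a ha x c hx using hcon
  obtain ⟨j, hj⟩ := h1 b m d hb hd a (fun j P hP hdeg => ha j P hP hdeg) x c
  exact absurd (hx j) (not_lt.mpr hj)

theorem EX_not_G2 (h2 : EX2_stmt) (T : Rooted) (hT : T.Balanced) (hv : 1 ≤ T.v) (d : ℕ)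
    (hd : 2 * (2 * T.r * T.e + 1) * T.e ≤ d) : ∃ j, ¬ EX_G2 T d j := by
  by_contra hcon
  push Not at hcon
  choose a ha ρ ρ' hx using hcon
  obtain ⟨j, hj⟩ := h2 T hT hv d hd a (fun j P hP hdeg => ha j P hP hdeg) ρ ρ'
  exact absurd (hx j) (not_lt.mpr hj)

theorem EX_aeval {F F' ι : Type*} [Field F] [Field F'] [Algebra (ZMod 3) F] [Algebra (ZMod 3) F']
    (f : F →ₐ[ZMod 3] F') (a : ι → F) (P : MvPolynomial ι (ZMod 3))
    (h : MvPolynomial.aeval a P ≠ 0) : MvPolynomial.aeval (fun i => f (a i)) P ≠ 0 := by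
  have : MvPolynomial.aeval (fun i => f (a i)) P = f (MvPolynomial.aeval a P) := by
    rw [← MvPolynomial.comp_aeval_apply]
  rw [this]
  intro h0
  exact h ((map_eq_zero_iff f f.toRingHom.injective).1 h0)

theorem EX_img1 {F F' : Type*} [Field F] [Field F'] (f : F →+* F') {b m d : ℕ}
    (a : Fin m → Mon b d → F) (x : Fin b → F) (c : Fin m → F) :
    {x' : Fin b → F | x' ≠ x ∧ col a x x' = c}.encard ≤
      {x' : Fin b → F' | x' ≠ (fun k => f (x k)) ∧
        col (fun j μ => f (a j μ)) (fun k => f (x k)) x' = fun j => f (c j)}.encard := by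
  have hinj : Function.Injective (fun (z : Fin b → F) (k : Fin b) => f (z k)) := by
    intro z z' h
    funext k
    exact f.injective (congrFun h k)
  rw [← hinj.encard_image]
  refine Set.encard_le_encard ?_
  rintro _ ⟨x', ⟨hne, hc⟩, rfl⟩
  refine ⟨fun h => hne (hinj h), ?_⟩
  have := EX_col f a x x'
  simp only at this ⊢
  rw [this, hc]

theorem EX_img2 {F F' : Type*} [Field F] [Field F'] (f : F →+* F') (T : Rooted) {b m d : ℕ}
    (a : Fin m → Mon b d → F) (ρ ρ' : Fin T.r → Fin b → F) :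
    (Sol T a ρ ρ').encard ≤
      (Sol T (fun j μ => f (a j μ)) (fun r k => f (ρ r k)) (fun r k => f (ρ' r k))).encard := by
  have hinj0 : Function.Injective (fun (z : Fin b → F) (k : Fin b) => f (z k)) := by
    intro z z' h
    funext k
    exact f.injective (congrFun h k)
  have hinj : Function.Injective
      (fun (z : (Fin T.r ⊕ Fin T.v → Fin b → F) × (Fin T.r ⊕ Fin T.v → Fin b → F)) =>
        ((fun x k => f (z.1 x k), fun x k => f (z.2 x k)) :
          (Fin T.r ⊕ Fin T.v → Fin b → F') × (Fin T.r ⊕ Fin T.v → Fin b → F'))) := by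
    intro z z' h
    simp only [Prod.mk.injEq] at h
    refine Prod.ext ?_ ?_
    · funext x
      exact hinj0 (congrFun h.1 x)
    · funext x
      exact hinj0 (congrFun h.2 x)
  rw [← hinj.encard_image]
  refine Set.encard_le_encard ?_
  rintro _ ⟨z, ⟨h1, h2, h3, h4⟩, rfl⟩
  refine ⟨fun x => ?_, fun x => ?_, ?_, fun i => ?_⟩
  · simp only
    rw [h1 x]
  · simp only
    rw [h2 x]
  · have : (Sum.elim (fun x k => f (z.1 x k)) (fun x k => f (z.2 x k))) =
        (fun (w : Fin b → F) (k : Fin b) => f (w k)) ∘ (Sum.elim z.1 z.2) := by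
      funext x
      rcases x with x | x <;> rfl
    show Function.Injective (Sum.elim (fun x k => f (z.1 x k)) (fun x k => f (z.2 x k)))
    rw [this]
    exact hinj0.comp h3
  · show col (fun j μ => f (a j μ)) (fun k => f (z.1 (T.ed i).1 k)) (fun k => f (z.1 (T.ed i).2 k)) =
      col (fun j μ => f (a j μ)) (fun k => f (z.2 (T.ed i).1 k)) (fun k => f (z.2 (T.ed i).2 k))
    rw [EX_col, EX_col, h4 i]

theorem EX (h1 : EX1_stmt) (h2 : EX2_stmt) (h3 : SZ_stmt) : EX_stmt := by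
  intro T hT hv he hev
  set d : ℕ := max (2 * (2 * T.v)) (2 * (2 * T.r * T.e + 1) * T.e) with hd
  obtain ⟨j₁, hj₁⟩ := EX_not_G1 h1 T.e (2 * T.v) d hev (le_max_left _ _)
  obtain ⟨j₂, hj₂⟩ := EX_not_G2 h2 T hT hv d (le_max_right _ _)
  set j : ℕ := max j₁ j₂ with hj
  have hn1 : ¬ EX_G1 T.e (2 * T.v) d j := fun H => hj₁ (EX_G1_mono (le_max_left _ _) H)
  have hn2 : ¬ EX_G2 T d j := fun H => hj₂ (EX_G2_mono (le_max_right _ _) H)
  obtain ⟨i₀, hi₀⟩ := h3 (Fin (2 * T.v) × Mon T.e d) j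
  refine ⟨d, j, i₀, fun i hi => ?_⟩
  obtain ⟨a', ha'⟩ := hi₀ i hi
  let a : Fin (2 * T.v) → Mon T.e d → GaloisField 3 i := fun k μ => a' (k, μ)
  let f : GaloisField 3 i →ₐ[ZMod 3] Om := IsAlgClosed.lift
  have hgen : ∀ P : MvPolynomial (Fin (2 * T.v) × Mon T.e d) (ZMod 3), P ≠ 0 → P.totalDegree ≤ j →
      MvPolynomial.aeval (fun q : Fin (2 * T.v) × Mon T.e d => f (a q.1 q.2)) P ≠ 0 := by
    intro P hP hdeg
    exact EX_aeval f a' P (ha' P hP hdeg)
  refine ⟨a, fun x c => ?_, fun ρ ρ' => ?_⟩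
  · by_contra hcon
    rw [not_le] at hcon
    refine hn1 ⟨fun k μ => f (a k μ), hgen, fun k => f (x k), fun k => f (c k), ?_⟩
    exact lt_of_lt_of_le hcon (EX_img1 f.toRingHom a x c)
  · by_contra hcon
    rw [not_le] at hcon
    refine hn2 ⟨fun k μ => f (a k μ), hgen, fun r k => f (ρ r k), fun r k => f (ρ' r k), ?_⟩
    exact lt_of_lt_of_le hcon (EX_img2 f.toRingHom T a ρ ρ')

end Pool.Agent.helper23.TH
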