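import Pool.Agent.helper23.TH.Spec

set_option autoImplicit false

open scoped BigOperators Topology
open Filter

namespace Pool.Agent.helper23.TH

/-- two colour isomorphic copies of `T.pw p` give `p` elements of `Sol` -/
theorem UA_sol {F : Type*} [Field F] (T : Rooted) (hv : 1 ≤ T.v) {b m d p : ℕ}
    (a : Fin m → Mon b d → F) (φ ψ : Fin T.r ⊕ (Fin p × Fin T.v) → Fin b → F)
    (hφ : Function.Injective φ) (hψ : Function.Injective ψ) (hd : ∀ u v, φ u ≠ ψ v)
    (hc : ∀ u v, (T.pw p).Adj u v → col a (φ u) (φ v) = col a (ψ u) (ψ v)) :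
    (p : ℕ∞) ≤ (Sol T a (fun r => φ (Sum.inl r)) (fun r => ψ (Sum.inl r))).encard := by
  let z : Fin p → (Fin T.r ⊕ Fin T.v → Fin b → F) × (Fin T.r ⊕ Fin T.v → Fin b → F) :=
    fun t => (φ ∘ T.lift t, ψ ∘ T.lift t)
  have hz : ∀ t, z t ∈ Sol T a (fun r => φ (Sum.inl r)) (fun r => ψ (Sum.inl r)) := by
    intro t
    refine ⟨fun x => rfl, fun x => rfl, ?_, fun i => ?_⟩
    · refine Function.Injective.sumElim (hφ.comp (T.lift_inj t)) (hψ.comp (T.lift_inj t)) ?_
      intro u v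
      exact hd _ _
    · exact hc _ _ ⟨t, i, Or.inl ⟨rfl, rfl⟩⟩
  have hzi : Function.Injective z := by
    intro t t' h
    have h1 : φ (T.lift t (Sum.inr ⟨0, hv⟩)) = φ (T.lift t' (Sum.inr ⟨0, hv⟩)) :=
      congrFun (congrArg Prod.fst h) (Sum.inr ⟨0, hv⟩)
    have h2 := hφ h1
    simp only [Rooted.lift, Sum.inr.injEq, Prod.mk.injEq] at h2
    exact h2.1
  calc (p : ℕ∞) = (Set.range z).encard := by
        rw [← Set.image_univ, hzi.encard_image, Set.encard_univ]
        simp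
    _ ≤ _ := Set.encard_le_encard (by rintro _ ⟨t, rfl⟩; exact hz t)

theorem UA (h1 : EX_stmt) (h2 : GC_stmt) : UB_stmt := by
  intro T hT hv he hev
  obtain ⟨d, C, i₀, hex⟩ := h1 T hT hv he hev
  refine ⟨C + 1, 9 ^ T.v * (2 * C + 1), by positivity, 3 ^ ((i₀ + 1) * T.e) + 1, fun n hn => ?_⟩
  -- the exponent
  have hexi : ∃ i : ℕ, n ≤ (3 ^ i) ^ T.e := by
    refine ⟨n, ?_⟩
    calc n ≤ 3 ^ n := (Nat.lt_pow_self (by norm_num)).le
      _ = (3 ^ n) ^ 1 := (pow_one _).symm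
      _ ≤ (3 ^ n) ^ T.e := Nat.pow_le_pow_right (by positivity) he
  classical
  set i := Nat.find hexi with hi
  have hin : n ≤ (3 ^ i) ^ T.e := Nat.find_spec hexi
  have hibig : i₀ + 1 < i := by
    by_contra hcon
    push Not at hcon
    have : n ≤ 3 ^ ((i₀ + 1) * T.e) := by
      calc n ≤ (3 ^ i) ^ T.e := hin
        _ = 3 ^ (i * T.e) := by rw [← pow_mul]
        _ ≤ 3 ^ ((i₀ + 1) * T.e) := Nat.pow_le_pow_right (by norm_num) (Nat.mul_le_mul_right _ hcon)
    omega
  have himin : (3 ^ (i - 1)) ^ T.e < n := by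
    have := Nat.find_min hexi (m := i - 1) (by omega)
    omega
  obtain ⟨a, ha1, ha2⟩ := hex i (by omega)
  -- the vertices
  have hcardF : Nat.card (GaloisField 3 i) = 3 ^ i := GaloisField.card 3 i (by omega)
  have : Finite (GaloisField 3 i) := Nat.finite_of_card_ne_zero (by rw [hcardF]; positivity)
  letI : Fintype (GaloisField 3 i) := Fintype.ofFinite _
  have hcF : Fintype.card (GaloisField 3 i) = 3 ^ i := by rw [← Nat.card_eq_fintype_card]; exact hcardF
  have hcV : Fintype.card (Fin T.e → GaloisField 3 i) = (3 ^ i) ^ T.e := by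
    rw [Fintype.card_fun, hcF, Fintype.card_fin]
  obtain ⟨ι⟩ : Nonempty (Fin n ↪ (Fin T.e → GaloisField 3 i)) := by
    apply Function.Embedding.nonempty_of_card_le
    rw [hcV, Fintype.card_fin]
    exact hin
  obtain ⟨g, hg⟩ := h2 (Fin T.e → GaloisField 3 i) (Fin (2 * T.v) → GaloisField 3 i) (fun x y => col a x y) C
    (fun x y => col_comm a x y) ha1
  -- the colours
  let K := (Fin (2 * T.v) → GaloisField 3 i) × Fin (2 * C + 1)
  have hcK : Fintype.card K = (3 ^ i) ^ (2 * T.v) * (2 * C + 1) := by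
    simp only [K, Fintype.card_prod, Fintype.card_fun, hcF, Fintype.card_fin]
  let eK : K ≃ Fin (Fintype.card K) := Fintype.equivFin K
  refine ⟨Fintype.card K, ?_, fun x y => eK (col a (ι x) (ι y), g (ι x) (ι y)), ⟨?_, ?_⟩, ?_⟩
  · rw [hcK]
    have hq : ((3 : ℝ) ^ i) ≤ 3 * (n : ℝ) ^ (1 / (T.e : ℝ)) := by
      have h3 : ((3 : ℝ) ^ (i - 1)) ^ T.e ≤ (n : ℝ) := by exact_mod_cast himin.le
      have h4 : (3 : ℝ) ^ (i - 1) ≤ (n : ℝ) ^ (1 / (T.e : ℝ)) := by
        have h5 : (((3 : ℝ) ^ (i - 1)) ^ T.e) ^ (1 / (T.e : ℝ)) ≤ (n : ℝ) ^ (1 / (T.e : ℝ)) :=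
          Real.rpow_le_rpow (by positivity) h3 (by positivity)
        rwa [one_div, Real.pow_rpow_inv_natCast (by positivity) (by omega), ← one_div] at h5
      calc (3 : ℝ) ^ i = 3 * 3 ^ (i - 1) := by rw [← pow_succ', Nat.sub_add_cancel (by omega)]
        _ ≤ _ := by linarith
    have h6 : ((3 : ℝ) ^ i) ^ (2 * T.v) ≤ 9 ^ T.v * (n : ℝ) ^ (2 * (T.v : ℝ) / T.e) := by
      calc ((3 : ℝ) ^ i) ^ (2 * T.v) ≤ (3 * (n : ℝ) ^ (1 / (T.e : ℝ))) ^ (2 * T.v) :=
            pow_le_pow_left₀ (by positivity) hq _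
        _ = 9 ^ T.v * (n : ℝ) ^ (2 * (T.v : ℝ) / T.e) := by
            rw [mul_pow, pow_mul, ← Real.rpow_natCast ((n : ℝ) ^ (1 / (T.e : ℝ))) (2 * T.v),
              ← Real.rpow_mul (by positivity)]
            norm_num
            congr 1
            field_simp
    push_cast
    calc ((3 : ℝ) ^ i) ^ (2 * T.v) * (2 * C + 1) ≤
          (9 ^ T.v * (n : ℝ) ^ (2 * (T.v : ℝ) / T.e)) * (2 * C + 1) :=
          mul_le_mul_of_nonneg_right h6 (by positivity)
      _ = _ := by ring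
  · intro x y
    have := hg.symm (ι x) (ι y)
    exact congrArg eK this
  · intro x y z hxy hxz hyz h
    exact hg.proper (ι x) (ι y) (ι z) (fun h => hxy (ι.injective h)) (fun h => hxz (ι.injective h))
      (fun h => hyz (ι.injective h)) (eK.injective h)
  · rintro ⟨φ, ψ, hφ, hψ, hdis, hcol⟩
    have h7 := UA_sol T hv a (fun u => ι (φ u)) (fun u => ι (ψ u)) (ι.injective.comp hφ)
      (ι.injective.comp hψ) (fun u v h => hdis u v (ι.injective h)) (by
        intro u v huv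
        have := eK.injective (hcol u v huv)
        exact (Prod.ext_iff.1 this).1)
    have h8 := h7.trans (ha2 _ _)
    have : C + 1 ≤ C := by exact_mod_cast h8
    omega

end Pool.Agent.helper23.TH
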